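import Pool.Agent.Y132.AH.MT

/-!
# Products with varieties whose cohomology is spanned by algebraic classes
-/

open CategoryTheory AlgebraicGeometry

set_option linter.unusedSectionVars false

universe u v

namespace Pool.Agent.U191.MTP

open Pool.Agent.H914 Pool.Agent.H914.VarClass Pool.Agent.H914.VarClass.Obj
  Pool.Agent.H914.WeilCohomology Pool.Agent.H281R3.HT Pool.Agent.W552 Pool.Agent.TH125.Gal
  Pool.Agent.Y132.AF Pool.Agent.Y132.AH

variable {k : Type u} [Field k] {𝒱 : VarClass k} {ops : CycleOps 𝒱}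
  {W : WeilCohomology.{u, 0} ops} {Γ : Type} [Group Γ] (G : GaloisData W Γ) (Ψ : HodgeData W)

/-- The subspaces spanned by the algebraic classes of codimension `j`. -/
def algFam (W : WeilCohomology.{u, 0} ops) (Z : 𝒱.Obj) : Set (Submodule W.K (W.H Z)) :=
  {U | ∃ j, U = Submodule.span W.K (algClasses W Z j)}

theorem algFam_gen {Z : 𝒱.Obj} (hZ : algSpan W Z = ⊤) :
    Algebra.adjoin W.K (⋃ U ∈ algFam W Z, (U : Set (W.H Z))) = ⊤ := by
  rw [eq_top_iff]
  intro x _
  have hx : x ∈ algSpan W Z := by rw [hZ]; trivial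
  have h1 : algSpan W Z ≤ Subalgebra.toSubmodule
      (Algebra.adjoin W.K (⋃ U ∈ algFam W Z, (U : Set (W.H Z)))) := by
    refine Submodule.span_le.2 ?_
    intro c hc
    obtain ⟨j, hc⟩ := Set.mem_iUnion.1 hc
    exact Algebra.subset_adjoin (Set.mem_iUnion₂.2
      ⟨_, ⟨j, rfl⟩, Submodule.subset_span hc⟩)
  exact h1 hx

theorem span_stable (Z : 𝒱.Obj) (j : ℕ) (g : Γ) {x : W.H Z}
    (hx : x ∈ Submodule.span W.K (algClasses W Z j)) :
    G.act Z g x ∈ Submodule.span W.K (algClasses W Z j) := by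
  induction hx using Submodule.span_induction with
  | mem x hx =>
    obtain ⟨c', hc', h⟩ := (G.galois Z).cl_act g j x hx
    rw [h]
    exact Submodule.smul_mem _ _ (Submodule.subset_span hc')
  | zero => rw [map_zero]; exact Submodule.zero_mem _
  | add x y _ _ hx hy => rw [map_add]; exact Submodule.add_mem _ hx hy
  | smul r x _ hx => rw [map_smul]; exact Submodule.smul_mem _ _ hx

theorem act_pow_eig {Z : 𝒱.Obj} {g : Γ} {x : W.H Z} {a : W.K} (h : G.act Z g x = a • x) (m : ℕ) :
    G.act Z (g ^ m) x = a ^ m • x := by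
  induction m with
  | zero => simp
  | succ m ih =>
    rw [pow_succ g m, map_mul, AlgEquiv.mul_apply, h, map_smul, ih, smul_smul, pow_succ' a m]

/-- A power of `g` acts on an algebraic class by the power of the cyclotomic character. -/
theorem span_pow (Z : 𝒱.Obj) (j : ℕ) (g : Γ) {x : W.H Z}
    (hx : x ∈ Submodule.span W.K (algClasses W Z j)) :
    ∃ m : ℕ, 0 < m ∧ G.act Z (g ^ m) x = ((G.χ g : W.K) ^ (j * m)) • x := by
  induction hx using Submodule.span_induction with
  | mem x hx =>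
    obtain ⟨Δ, hΔ, h⟩ := (G.galois Z).cl_fix j x hx
    obtain ⟨m, hm0, -, hm⟩ := Subgroup.exists_pow_mem_of_index_ne_zero hΔ.index_ne_zero g
    refine ⟨m, hm0, ?_⟩
    rw [h _ hm, map_pow, Units.val_pow_eq_pow_val, ← pow_mul, mul_comm m j]
  | zero => exact ⟨1, one_pos, by rw [map_zero, smul_zero]⟩
  | add x y _ _ hx hy =>
    obtain ⟨m, hm, h1⟩ := hx
    obtain ⟨n, hn, h2⟩ := hy
    refine ⟨m * n, Nat.mul_pos hm hn, ?_⟩
    have e1 : G.act Z (g ^ (m * n)) x = ((G.χ g : W.K) ^ (j * (m * n))) • x := by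
      rw [pow_mul, act_pow_eig G h1, ← pow_mul]
      congr 2
      ring
    have e2 : G.act Z (g ^ (m * n)) y = ((G.χ g : W.K) ^ (j * (m * n))) • y := by
      rw [mul_comm m n, pow_mul, act_pow_eig G h2, ← pow_mul]
      congr 2
      ring
    rw [map_add, e1, e2, smul_add]
  | smul r x _ hx =>
    obtain ⟨m, hm, h1⟩ := hx
    exact ⟨m, hm, by rw [map_smul, h1, smul_comm]⟩

theorem root_eq {K : Type} [Field K] {c lam β : K} {m n : ℕ} (hβ : β ≠ 0)
    (h1 : (lam * β) ^ m = c ^ m) (h2 : β ^ n = c ^ n) : lam ^ (m * n) = 1 := by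
  have h3 : (lam * β) ^ (m * n) = c ^ (m * n) := by rw [pow_mul, h1, ← pow_mul]
  have h4 : β ^ (m * n) = c ^ (m * n) := by rw [mul_comm m n, pow_mul, h2, ← pow_mul]
  rw [mul_pow, ← h4] at h3
  exact mul_right_cancel₀ (pow_ne_zero _ hβ) (by rw [h3, one_mul])

/-- **No eigenvalues of the adjoint representation** occur on varieties whose cohomology is spanned
by algebraic classes. -/
theorem not_stableBound_alg {X Z : 𝒱.Obj} (hZ : algSpan W Z = ⊤)
    (hX : HypAct (transcendental W X) (G.act X)) :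
    ¬StableBound G.χ (G.var X) (G.var Z) := by
  intro hB
  obtain ⟨g, x, hxT, y, hyT, hx0, hy0, a, b, hxa, hyb, hab⟩ := hX
  have key : ∀ (x : W.H X) (a : W.K), x ∈ transcendental W X → x ≠ 0 → G.act X g x = a • x →
      ∃ m : ℕ, 0 < m ∧ (a * a) ^ m = ((G.χ g : W.K) ^ X.dim) ^ m := by
    intro x a hxT hx0 hxa
    have hχ : (G.χ g : W.K) ^ X.dim ≠ 0 := pow_ne_zero _ (Units.ne_zero _)
    obtain ⟨U, ⟨j, rfl⟩, z, hz, w, hw, hz0, hw0, β, hzβ, hwβ⟩ := hB (algFam W Z)
      ⟨by rintro _ ⟨j, rfl⟩ g x hx; exact span_stable G Z j g hx, algFam_gen hZ⟩ g a a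
      (a * a / (G.χ g : W.K) ^ X.dim) x hxT x hxT hx0 hx0 hxa hxa (by
        change (G.χ g : W.K) ^ X.dim * _ = _
        field_simp)
    have hzβ' : G.act Z g z = (a * a / (G.χ g : W.K) ^ X.dim * β) • z := hzβ
    have hwβ' : G.act Z g w = β • w := hwβ
    have hβ0 : β ≠ 0 := by
      rintro rfl
      rw [zero_smul] at hwβ'
      exact hw0 ((G.act Z g).injective (by rw [map_zero]; exact hwβ'))
    obtain ⟨m, hm, h1⟩ := span_pow G Z j g hz
    obtain ⟨n, hn, h2⟩ := span_pow G Z j g hw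
    rw [act_pow_eig G hzβ' m, pow_mul] at h1
    rw [act_pow_eig G hwβ' n, pow_mul] at h2
    have h3 := root_eq hβ0 (smul_left_injective _ hz0 h1) (smul_left_injective _ hw0 h2)
    refine ⟨m * n, Nat.mul_pos hm hn, ?_⟩
    rw [div_pow, div_eq_one_iff_eq (pow_ne_zero _ hχ)] at h3
    exact h3
  obtain ⟨m, hm, h1⟩ := key x a hxT hx0 hxa
  obtain ⟨n, hn, h2⟩ := key y b hyT hy0 hyb
  refine hab (2 * (m * n)) (by positivity) ?_
  have h3 : (a * a) ^ (m * n) = (b * b) ^ (m * n) := by
    have e1 : (a * a) ^ (m * n) = ((G.χ g : W.K) ^ X.dim) ^ (m * n) := by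
      rw [pow_mul, h1, ← pow_mul]
    have e2 : (b * b) ^ (m * n) = ((G.χ g : W.K) ^ X.dim) ^ (m * n) := by
      rw [mul_comm m n, pow_mul, h2, ← pow_mul]
    rw [e1, e2]
  have e : ∀ c : W.K, c ^ (2 * (m * n)) = (c * c) ^ (m * n) := fun c => by
    rw [pow_mul, pow_two]
  rw [e a, e b]
  exact h3

/-- The product of varieties whose cohomology is spanned by algebraic classes. -/
theorem algSpan_prod {A B : 𝒱.Obj} (hA : algSpan W A = ⊤) (hB : algSpan W B = ⊤) :
    algSpan W (A.prod B) = ⊤ := by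
  rw [eq_top_iff]
  intro x _
  refine W.kunneth_induction (p := fun x => x ∈ algSpan W (A.prod B)) ?_ ?_ x
  · intro a b ha hb
    exact Submodule.add_mem _ ha hb
  · intro i j a _ b _
    have ha : a ∈ algSpan W A := by rw [hA]; trivial
    have hb : b ∈ algSpan W B := by rw [hB]; trivial
    rename_i hai hbj
    clear hai hbj
    induction ha using Submodule.span_induction with
    | mem a ha =>
      induction hb using Submodule.span_induction with
      | mem b hb =>
        obtain ⟨p, z, hz, rfl⟩ := Set.mem_iUnion.1 ha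
        obtain ⟨q, w, hw, rfl⟩ := Set.mem_iUnion.1 hb
        refine Submodule.subset_span (Set.mem_iUnion.2 ⟨p + q,
          ops.mul (ops.pull (fst A B) z) (ops.pull (snd A B) w),
          ops.mul_mem (ops.pull_mem _ hz) (ops.pull_mem _ hw), ?_⟩)
        rw [W.isCompatible.cl_mul, W.isCompatible.cl_pull, W.isCompatible.cl_pull]
      | zero => rw [map_zero, mul_zero]; exact Submodule.zero_mem _
      | add x y _ _ hx hy => rw [map_add, mul_add]; exact Submodule.add_mem _ hx hy
      | smul r x _ hx => rw [map_smul, mul_smul_comm]; exact Submodule.smul_mem _ _ hx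
    | zero => rw [map_zero, zero_mul]; exact Submodule.zero_mem _
    | add x y _ _ hx hy => rw [map_add, add_mul]; exact Submodule.add_mem _ hx hy
    | smul r x _ hx => rw [map_smul, smul_mul_assoc]; exact Submodule.smul_mem _ _ hx

theorem algSpan_pow {Z : 𝒱.Obj} (hZ : algSpan W Z = ⊤) (n : ℕ) : algSpan W (powN Z n) = ⊤ := by
  induction n with
  | zero => exact hZ
  | succ n ih => exact algSpan_prod hZ ih

/-- The Hodge types of varieties whose cohomology is spanned by algebraic classes. -/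
theorem widthOn_alg {Z : 𝒱.Obj} (hZ : algSpan W Z = ⊤) : WidthOn (Ψ.on Z) 0 := by
  have hU : ∀ j, Submodule.span W.K (algClasses W Z j) ≤ Ψ.hodge Z (j, j) := fun j =>
    Submodule.span_le.2 fun c hc => (Ψ.isHodgeDec Z).cl_mem j c hc
  have hco : ∀ (σ : RingAut W.K) j, ∀ x ∈ Submodule.span W.K (algClasses W Z j),
      Ψ.coeff Z σ x ∈ Submodule.span W.K (algClasses W Z j) := by
    intro σ j x hx
    induction hx using Submodule.span_induction with
    | mem x hx =>
      rw [(Ψ.isCoeffAct Z).cl_act σ j x hx]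
      exact Submodule.subset_span hx
    | zero => rw [map_zero]; exact Submodule.zero_mem _
    | add x y _ _ hx hy => rw [map_add]; exact Submodule.add_mem _ hx hy
    | smul r x _ hx =>
      rw [(Ψ.isCoeffAct Z).smul]
      exact Submodule.smul_mem _ _ hx
  refine ⟨algFam W Z, ⟨?_, algFam_gen hZ⟩, ?_⟩
  · rintro _ ⟨j, rfl⟩ g x hx
    have h1 := hco g.1⁻¹ j x hx
    change Ψ.coeff Z g.1 (scaleOp (Ψ.isHodgeDec Z).isInternal (fun i => (g.2 : W.K) ^ i.1)
      (Ψ.coeff Z g.1⁻¹ x)) ∈ _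
    rw [scaleOp_apply _ _ (hU j h1)]
    exact hco g.1 j _ (Submodule.smul_mem _ _ h1)
  · rintro _ ⟨j, rfl⟩
    refine ⟨⟨j + j, fun x hx => (Ψ.isHodgeDec Z).le j j (hU j hx)⟩, ?_⟩
    have h2 : ∀ p q, TypeOn (Ψ.on Z) (Submodule.span W.K (algClasses W Z j)) p q → p = j := by
      rintro p q ⟨x, hx, hxH, hx0⟩
      by_contra hpj
      apply hx0
      have h3 := prj_same (Ψ.isHodgeDec Z).isInternal (hU j hx)
      rw [← h3, prj_ne (Ψ.isHodgeDec Z).isInternal (i := (j, j)) (j := (p, q))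
        (fun h => hpj (congrArg Prod.fst h)) hxH]
    intro p q p' q' h3 h4
    rw [h2 p q h3, h2 p' q' h4]
    exact Nat.le_refl _

theorem levelGT_zero {X : 𝒱.Obj} (h : SpVar Ψ X) : LevelGT Ψ X 0 := by
  obtain ⟨p, q, hpq, h1, h2⟩ := exists_pair Ψ h
  have h3 := h.act.odd
  rw [← hpq] at h3
  rcases Nat.lt_trichotomy p q with h4 | h4 | h4
  · exact ⟨q, p, h2, by omega⟩
  · rw [h4] at h3
    exact absurd (Even.add_self q) (Nat.not_even_iff_odd.2 h3)
  · exact ⟨p, q, h1, by omega⟩

theorem typeSep_alg {X Z : 𝒱.Obj} (h : SpVar Ψ X) (hZ : algSpan W Z = ⊤) : TypeSep Ψ X Z :=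
  ⟨0, widthOn_alg Ψ hZ, levelGT_zero Ψ h⟩

/-- A class system contains everything if the cohomology is spanned by algebraic classes. -/
theorem mem_of_alg {Z : 𝒱.Obj} (hZ : algSpan W Z = ⊤) (𝒞 : ClassSystem W) (c : W.H Z) :
    c ∈ 𝒞.C Z := 𝒞.alg_le Z (by rw [hZ]; trivial)

/-- **The Mumford-Tate conjecture** for products of the varieties of the family with a variety whose
cohomology is spanned by algebraic classes. -/
theorem mt_alg [IsAlgClosed W.K] {ι : Type} {X : ι → 𝒱.Obj} (hH : SpFamily Ψ X)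
    (hG : BigFamily G X) {Z : 𝒱.Obj} (hZ : algSpan W Z = ⊤) (L : List ι) :
    MumfordTate Ψ G (prodList X Z L) := by
  classical
  have hG' := bigFamily_ad G (spFamily_odd Ψ hH) hG
  rw [mumfordTate_iff, ← tateIn_hodge, ← hodgeIn_tate]
  constructor
  · obtain ⟨B, -, hB, hiff⟩ := tate_iff G Z hG' (hodgeSys Ψ)
    have hB0 : ∀ i, i ∉ B := fun i hi =>
      not_stableBound_alg G hZ (hG.big i).hyperbolic (hB i hi)
    rw [hiff]
    intro L' _ hsmall
    have h1 : L' = [] := by
      rw [List.eq_nil_iff_forall_not_mem]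
      exact fun i hi => hB0 i (hsmall.mem i hi)
    subst h1
    exact fun j c _ => mem_of_alg hZ _ c
  · rw [hodge_sep Ψ Z hH (tateSys G) (fun i => typeSep_alg Ψ (hH.var i) hZ) L]
    exact fun j c _ => mem_of_alg hZ _ c

/-- All powers. -/
theorem mtAll_alg [IsAlgClosed W.K] {ι : Type} {X : ι → 𝒱.Obj} (hH : SpFamily Ψ X)
    (hG : BigFamily G X) {Z : 𝒱.Obj} (hZ : algSpan W Z = ⊤) (L : List ι) :
    MumfordTateAll Ψ G (prodList X Z L) := by
  intro n
  obtain ⟨L', ⟨e⟩⟩ := iso_pow X Z L n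
  exact mumfordTate_iso G Ψ e.symm (mt_alg G Ψ hH hG (algSpan_pow hZ n) L')

/-- If the transcendental cohomology is zero then all classes are combinations of algebraic
classes. -/
theorem algSpan_of_trDim {Z : 𝒱.Obj} (hZ : trDim W Z = 0) : algSpan W Z = ⊤ := by
  have hT : transcendental W Z = ⊥ := Submodule.finrank_eq_zero.1 hZ
  by_contra hne
  obtain ⟨x, hx⟩ : ∃ x : W.H Z, x ∉ algSpan W Z := by
    by_contra hcon
    push Not at hcon
    exact hne (eq_top_iff.2 fun x _ => hcon x)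
  obtain ⟨f, hfx, hf⟩ := Submodule.exists_le_ker_of_notMem hx
  have hinj : Function.Injective (bil W Z) := by
    rw [injective_iff_map_eq_zero]
    intro a ha
    exact W.nondeg a fun b => by
      have h1 := congrArg (fun F => F b) ha
      exact h1
  have hsurj : Function.Surjective (bil W Z) :=
    (LinearMap.injective_iff_surjective_of_finrank_eq_finrank
      (Subspace.dual_finrank_eq (K := W.K) (V := W.H Z)).symm).1 hinj
  obtain ⟨y, hy⟩ := hsurj f
  have hyT : y ∈ transcendental W Z := by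
    rw [transcendental, orthCompl]
    simp only [Submodule.mem_iInf]
    intro c hc
    have h1 : f c = 0 := hf (Submodule.subset_span hc)
    rw [← hy] at h1
    exact h1
  rw [hT, Submodule.mem_bot] at hyT
  rw [hyT, map_zero] at hy
  rw [← hy] at hfx
  exact hfx rfl

end Pool.Agent.U191.MTP
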